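import Pool.Agent.Gap.Tower

set_option autoImplicit false

open TopologicalSpace

/-- For every `n` there is a nonempty complete metric space with a base of clopen sets
(`ind X = 0`) whose large inductive dimension is exactly `n`. -/
theorem Pool.Agent.Results.MP_3d1901_gt.GapDimension.result (n : ℕ) :
    ∃ (X : Type) (_ : MetricSpace X), CompleteSpace X ∧ Nonempty X ∧
      IsTopologicalBasis {s : Set X | IsClopen s} ∧
      Pool.Agent.Gap.IndLT (n + 1) X ∧ ¬ Pool.Agent.Gap.IndLT n X := by
  obtain ⟨X, hX, h1, h2, h3, h4⟩ := Pool.Agent.Gap.gap n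
  refine ⟨X, hX, h1, ?_, h2, h3, h4⟩
  by_contra hne
  rw [not_nonempty_iff] at hne
  have h0 : Pool.Agent.Gap.IndLT 0 X := hne
  exact h4 (h0.mono (Nat.zero_le n))
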