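import Pool.Agent.Gap.Tower

set_option autoImplicit false

open TopologicalSpace

/-- There is a complete metric space with a base of clopen sets which is not a countable union of
closed subspaces that have large transfinite dimension. -/
theorem Pool.Agent.Results.MP_3d1901_gt.NoCountableTrInd.result :
    ∃ (X : Type) (_ : MetricSpace X), CompleteSpace X ∧
      IsTopologicalBasis {s : Set X | IsClopen s} ∧
      ∀ F : ℕ → Set X, (∀ j, IsClosed (F j)) →
        (∀ j, ∃ α, Pool.Agent.Gap.TrIndLT α (F j)) → ⋃ j, F j ≠ Set.univ :=
  Pool.Agent.Gap.no_countable_trInd
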