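import Pool.Agent.GapW.Final

set_option autoImplicit false

open TopologicalSpace Cardinal

/-- Let `X` be a metric space with a base of clopen sets. If `X` has weight at most `ℵ_n`, then
`X` is the union of `n + 1` subspaces with `Ind ≤ 0` and `Ind X ≤ n`. If `X` is a countable union
of (arbitrary) subspaces of weight smaller than `ℵ_ω`, then `X` is a countable union of subspaces
with `Ind ≤ 0`. -/
theorem Pool.Agent.Results.MP_3d1901_gt.WeightBound.result (X : Type) [MetricSpace X]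
    (hX : IsTopologicalBasis {s : Set X | IsClopen s}) :
    (∀ (n : ℕ) (B : Set (Set X)), IsTopologicalBasis B → #B ≤ ℵ_ n →
      (∃ S : Fin (n + 1) → Set X, (∀ j, Pool.Agent.Gap.SZ (S j)) ∧ ⋃ j, S j = Set.univ) ∧
      Pool.Agent.Gap.IndLT (n + 1) X) ∧
    ∀ Y : ℕ → Set X, (⋃ k, Y k) = Set.univ →
      (∀ k, ∃ B : Set (Set (Y k)), IsTopologicalBasis B ∧ #B < ℵ_ Ordinal.omega0) →
      ∃ Z : ℕ → Set X, (∀ m, Pool.Agent.Gap.SZ (Z m)) ∧ ⋃ m, Z m = Set.univ := by
  refine ⟨fun n B hB hc => ?_, fun Y hY hB => Pool.Agent.GapW.countable_dim hX Y hY hB⟩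
  obtain ⟨S, hS, hSc⟩ := Pool.Agent.GapW.exists_decomp n hX B hB hc
  exact ⟨⟨S, hS, hSc⟩, Pool.Agent.Gap.IndLT_of_cover (n + 1) S hS hSc⟩
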